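import Pool.Agent.Helper14.SS.Defs
import Pool.Agent.Helper20.FS.LinPer

/-!
# The back-and-forth equivalence for monadic second-order logic
-/

set_option autoImplicit false

namespace Pool.Agent.Helper32.MX

open FirstOrder FirstOrder.Language Pool.Agent.Helper20.Spectra Pool.Agent.Helper20.OP
  Pool.Agent.Helper20.FS Pool.Agent.Helper14.SS

/-- one more relation: a set of elements -/
def exS {b : ℕ} {V : Type} (R : Str b V) (X : V → Prop) : Str (b + 1) V :=
  Fin.snoc (α := fun _ => V → V → Prop) R (fun x _ => X x)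

@[simp] lemma exS_castSucc {b : ℕ} {V : Type} (R : Str b V) (X : V → Prop) (r : Fin b) :
    exS R X r.castSucc = R r := by
  unfold exS
  rw [Fin.snoc_castSucc]

@[simp] lemma exS_last {b : ℕ} {V : Type} (R : Str b V) (X : V → Prop) :
    exS R X (Fin.last b) = fun x _ => X x := by
  unfold exS
  rw [Fin.snoc_last]

/-- `q` round equivalence for monadic second-order logic -/
def ME : (q : ℕ) → {b : ℕ} → {V W : Type} → Str b V → Str b W → {m : ℕ} → (Fin m → V) →
    (Fin m → W) → Prop
  | 0, _, _, _, R, S, _, a, c => AtEq R S a c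
  | q + 1, _, V, W, R, S, _, a, c => AtEq R S a c ∧
      (∀ x, ∃ y, ME q R S (Fin.snoc a x) (Fin.snoc c y)) ∧
      (∀ y, ∃ x, ME q R S (Fin.snoc a x) (Fin.snoc c y)) ∧
      (∀ X : V → Prop, ∃ Y : W → Prop, ME q (exS R X) (exS S Y) a c) ∧
      ∀ Y : W → Prop, ∃ X : V → Prop, ME q (exS R X) (exS S Y) a c

variable {b : ℕ} {V W : Type} {R : Str b V} {S : Str b W}

lemma ME.at {q m : ℕ} {a : Fin m → V} {c : Fin m → W} (h : ME q R S a c) : AtEq R S a c := by
  cases q with
  | zero => exact h
  | succ q => exact h.1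

lemma ME.efq {q m : ℕ} {a : Fin m → V} {c : Fin m → W} (h : ME q R S a c) : EFq q R S a c := by
  induction q generalizing m with
  | zero => exact h
  | succ q ih =>
    refine ⟨h.1, fun x => ?_, fun y => ?_⟩
    · obtain ⟨y, hy⟩ := h.2.1 x
      exact ⟨y, ih hy⟩
    · obtain ⟨x, hx⟩ := h.2.2.1 y
      exact ⟨x, ih hx⟩

lemma AtEq.exS_of {m : ℕ} {a : Fin m → V} {c : Fin m → W} (h : AtEq R S a c) {X : V → Prop}
    {Y : W → Prop} (hXY : ∀ i, X (a i) ↔ Y (c i)) : AtEq (exS R X) (exS S Y) a c := by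
  refine ⟨h.1, fun r i j => ?_⟩
  refine Fin.lastCases ?_ (fun r => ?_) r
  · rw [exS_last, exS_last]
    exact hXY i
  · rw [exS_castSucc, exS_castSucc]
    exact h.2 r i j

lemma ME.succ_le {q : ℕ} : ∀ {b : ℕ} {R : Str b V} {S : Str b W} {m : ℕ} {a : Fin m → V}
    {c : Fin m → W}, ME (q + 1) R S a c → ME q R S a c := by
  induction q with
  | zero => exact fun h => h.1
  | succ q ih =>
    intro b R S m a c h
    refine ⟨h.1, fun x => ?_, fun y => ?_, fun X => ?_, fun Y => ?_⟩
    · obtain ⟨y, hy⟩ := h.2.1 x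
      exact ⟨y, ih hy⟩
    · obtain ⟨x, hx⟩ := h.2.2.1 y
      exact ⟨x, ih hx⟩
    · obtain ⟨Y, hY⟩ := h.2.2.2.1 X
      exact ⟨Y, ih hY⟩
    · obtain ⟨X, hX⟩ := h.2.2.2.2 Y
      exact ⟨X, ih hX⟩

lemma ME.mono {q q' : ℕ} (hq : q ≤ q') {m : ℕ} {a : Fin m → V} {c : Fin m → W}
    (h : ME q' R S a c) : ME q R S a c := by
  induction hq with
  | refl => exact h
  | step _ ih => exact ih (ME.succ_le h)

/-- other names of the relations -/
lemma ME.rels {q : ℕ} : ∀ {b b' : ℕ} {R : Str b' V} {S : Str b' W} {m : ℕ} {a : Fin m → V}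
    {c : Fin m → W} (τ : Fin b → Fin b'), ME q R S a c →
      ME q (fun r => R (τ r)) (fun r => S (τ r)) a c := by
  induction q with
  | zero => exact fun τ h => ⟨h.1, fun r i j => h.2 (τ r) i j⟩
  | succ q ih =>
    intro b b' R S m a c τ h
    have e : ∀ (U : Type) (T : Str b' U) (X : U → Prop), (fun r => exS T X
        ((Fin.snoc (fun r => (τ r).castSucc) (Fin.last b') : Fin (b + 1) → Fin (b' + 1)) r)) =
        exS (fun r => T (τ r)) X := by
      intro U T X
      funext r
      refine Fin.lastCases ?_ (fun r => ?_) r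
      · rw [Fin.snoc_last, exS_last, exS_last]
      · rw [Fin.snoc_castSucc, exS_castSucc, exS_castSucc]
    refine ⟨⟨h.1.1, fun r i j => h.1.2 (τ r) i j⟩, fun x => ?_, fun y => ?_, fun X => ?_,
      fun Y => ?_⟩
    · obtain ⟨y, hy⟩ := h.2.1 x
      exact ⟨y, ih τ hy⟩
    · obtain ⟨x, hx⟩ := h.2.2.1 y
      exact ⟨x, ih τ hx⟩
    · obtain ⟨Y, hY⟩ := h.2.2.2.1 X
      refine ⟨Y, ?_⟩
      have h1 := ih (Fin.snoc (fun r => (τ r).castSucc) (Fin.last b')) hY
      rw [e, e] at h1
      exact h1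
    · obtain ⟨X, hX⟩ := h.2.2.2.2 Y
      refine ⟨X, ?_⟩
      have h1 := ih (Fin.snoc (fun r => (τ r).castSucc) (Fin.last b')) hX
      rw [e, e] at h1
      exact h1

/-- other names of the elements -/
lemma ME.elts {q : ℕ} : ∀ {b : ℕ} {R : Str b V} {S : Str b W} {m m' : ℕ} {a : Fin m' → V}
    {c : Fin m' → W} (g : Fin m → Fin m'), ME q R S a c →
      ME q R S (fun i => a (g i)) (fun i => c (g i)) := by
  induction q with
  | zero => exact fun g h => ⟨fun i j => h.1 (g i) (g j), fun r i j => h.2 r (g i) (g j)⟩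
  | succ q ih =>
    intro b R S m m' a c g h
    have e : ∀ (U : Type) (t : Fin m' → U) (x : U), (fun i => (Fin.snoc t x : Fin (m' + 1) → U)
        ((Fin.snoc (fun i => (g i).castSucc) (Fin.last m') : Fin (m + 1) → Fin (m' + 1)) i)) =
        (Fin.snoc (fun i => t (g i)) x : Fin (m + 1) → U) := by
      intro U t x
      funext i
      refine Fin.lastCases ?_ (fun i => ?_) i
      · rw [Fin.snoc_last, Fin.snoc_last, Fin.snoc_last]
      · rw [Fin.snoc_castSucc, Fin.snoc_castSucc, Fin.snoc_castSucc]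
    refine ⟨⟨fun i j => h.1.1 (g i) (g j), fun r i j => h.1.2 r (g i) (g j)⟩, fun x => ?_,
      fun y => ?_, fun X => ?_, fun Y => ?_⟩
    · obtain ⟨y, hy⟩ := h.2.1 x
      refine ⟨y, ?_⟩
      have h1 := ih (Fin.snoc (fun i => (g i).castSucc) (Fin.last m')) hy
      rw [e, e] at h1
      exact h1
    · obtain ⟨x, hx⟩ := h.2.2.1 y
      refine ⟨x, ?_⟩
      have h1 := ih (Fin.snoc (fun i => (g i).castSucc) (Fin.last m')) hx
      rw [e, e] at h1
      exact h1
    · obtain ⟨Y, hY⟩ := h.2.2.2.1 X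
      exact ⟨Y, ih g hY⟩
    · obtain ⟨X, hX⟩ := h.2.2.2.2 Y
      exact ⟨X, ih g hX⟩

lemma ME.iso {q : ℕ} : ∀ {b : ℕ} (e : V ≃ W) (R : Str b V) {m : ℕ} (a : Fin m → V),
    ME q R (fun r (x y : W) => R r (e.symm x) (e.symm y)) a (fun i => e (a i)) := by
  induction q with
  | zero => exact fun e R m a => ⟨fun i j => by simp, fun r i j => by simp⟩
  | succ q ih =>
    intro b e R m a
    have h1 : ∀ x : V, (fun i => e ((Fin.snoc a x : Fin (m + 1) → V) i)) =
        (Fin.snoc (fun i => e (a i)) (e x) : Fin (m + 1) → W) := by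
      intro x
      funext i
      refine Fin.lastCases ?_ (fun i => ?_) i <;> simp
    have h3 : ∀ X : V → Prop, (fun r (x y : W) => exS R X r (e.symm x) (e.symm y)) =
        exS (fun r (x y : W) => R r (e.symm x) (e.symm y)) (fun y => X (e.symm y)) := by
      intro X
      funext r
      refine Fin.lastCases ?_ (fun r => ?_) r
      · rw [exS_last, exS_last]
      · rw [exS_castSucc, exS_castSucc]
    refine ⟨⟨fun i j => by simp, fun r i j => by simp⟩, fun x => ⟨e x, ?_⟩,
      fun y => ⟨e.symm y, ?_⟩, fun X => ⟨fun y => X (e.symm y), ?_⟩,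
      fun Y => ⟨fun x => Y (e x), ?_⟩⟩
    · have h2 := ih e R (Fin.snoc a x)
      rw [h1] at h2
      exact h2
    · have h2 := ih e R (Fin.snoc a (e.symm y))
      rw [h1, e.apply_symm_apply] at h2
      exact h2
    · have h2 := ih e (exS R X) a
      rw [h3] at h2
      exact h2
    · have h2 := ih e (exS R (fun x => Y (e x))) a
      rw [h3] at h2
      have h4 : (fun y => Y (e (e.symm y))) = Y := by
        funext y
        rw [e.apply_symm_apply]
      rw [h4] at h2
      exact h2

lemma ME.empty {q : ℕ} [IsEmpty V] [IsEmpty W] : ∀ {b : ℕ} (R : Str b V) (S : Str b W),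
    ME q R S (Fin.elim0 : Fin 0 → V) (Fin.elim0 : Fin 0 → W) := by
  induction q with
  | zero => exact fun R S => ⟨fun i => i.elim0, fun _ i => i.elim0⟩
  | succ q ih =>
    intro b R S
    exact ⟨⟨fun i => i.elim0, fun _ i => i.elim0⟩, fun x => isEmptyElim x, fun y => isEmptyElim y,
      fun X => ⟨fun y => isEmptyElim y, ih _ _⟩, fun Y => ⟨fun x => isEmptyElim x, ih _ _⟩⟩

/-! ## The operations -/

private lemma atEq_preS' (μ : Fin b → (Fin b → Prop) → Prop) {m : ℕ} {a : Fin m → V}
    {c : Fin m → W} (h : AtEq R S a c) : AtEq (preS μ R) (preS μ S) a c := by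
  refine ⟨h.1, fun r i j => ?_⟩
  have e : (fun r' => R r' (a i) (a j)) = fun r' => S r' (c i) (c j) := by
    funext r'
    exact propext (h.2 r' i j)
  show μ r (fun r' => R r' (a i) (a j)) ↔ μ r (fun r' => S r' (c i) (c j))
  rw [e]

/-- the operation on the structures with one more set -/
def upM (μ : Fin b → (Fin b → Prop) → Prop) : Fin (b + 1) → (Fin (b + 1) → Prop) → Prop :=
  Fin.snoc (α := fun _ => (Fin (b + 1) → Prop) → Prop)
    (fun r ρ => μ r (fun r' => ρ r'.castSucc)) (fun ρ => ρ (Fin.last b))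

lemma preS_exS (μ : Fin b → (Fin b → Prop) → Prop) (R : Str b V) (X : V → Prop) :
    preS (upM μ) (exS R X) = exS (preS μ R) X := by
  funext r x y
  refine Fin.lastCases ?_ (fun r => ?_) r
  · rw [exS_last]
    show upM μ (Fin.last b) _ = _
    unfold upM
    rw [Fin.snoc_last]
    show exS R X (Fin.last b) x y = X x
    rw [exS_last]
  · rw [exS_castSucc]
    show upM μ r.castSucc _ = _
    unfold upM
    rw [Fin.snoc_castSucc]
    show μ r (fun r' => exS R X r'.castSucc x y) = μ r (fun r' => R r' x y)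
    congr 1
    funext r'
    rw [exS_castSucc]

lemma ME.preS {q : ℕ} : ∀ {b : ℕ} (μ : Fin b → (Fin b → Prop) → Prop) {R : Str b V} {S : Str b W}
    {m : ℕ} {a : Fin m → V} {c : Fin m → W}, ME q R S a c → ME q (preS μ R) (preS μ S) a c := by
  induction q with
  | zero => exact fun μ _ _ _ _ _ h => atEq_preS' μ h
  | succ q ih =>
    intro b μ R S m a c h
    refine ⟨atEq_preS' μ h.1, fun x => ?_, fun y => ?_, fun X => ?_, fun Y => ?_⟩
    · obtain ⟨y, hy⟩ := h.2.1 x
      exact ⟨y, ih μ hy⟩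
    · obtain ⟨x, hx⟩ := h.2.2.1 y
      exact ⟨x, ih μ hx⟩
    · obtain ⟨Y, hY⟩ := h.2.2.2.1 X
      refine ⟨Y, ?_⟩
      have h1 := ih (upM μ) hY
      rw [preS_exS, preS_exS] at h1
      exact h1
    · obtain ⟨X, hX⟩ := h.2.2.2.2 Y
      refine ⟨X, ?_⟩
      have h1 := ih (upM μ) hX
      rw [preS_exS, preS_exS] at h1
      exact h1

private lemma snoc_some' {V : Type} {m₁ m : ℕ} (a : Fin m₁ → V) (g : Fin m → Option (Fin m₁))
    (x : V) :
    (fun i => ((Fin.snoc (fun i => (g i).map Fin.castSucc) (some (Fin.last m₁)) :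
        Fin (m + 1) → Option (Fin (m₁ + 1))) i).map (Fin.snoc a x : Fin (m₁ + 1) → V)) =
    (Fin.snoc (fun i => (g i).map a) (some x) : Fin (m + 1) → Option V) := by
  funext i
  refine Fin.lastCases ?_ (fun j => ?_) i
  · rw [Fin.snoc_last, Fin.snoc_last]
    simp only [Option.map_some, Fin.snoc_last]
  · rw [Fin.snoc_castSucc, Fin.snoc_castSucc]
    rcases g j with _ | i₁
    · rfl
    · simp only [Option.map_some, Fin.snoc_castSucc]

private lemma snoc_none' {V : Type} {m₁ m : ℕ} (a : Fin m₁ → V) (g : Fin m → Option (Fin m₁)) :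
    (fun i => ((Fin.snoc g none : Fin (m + 1) → Option (Fin m₁)) i).map a) =
    (Fin.snoc (fun i => (g i).map a) none : Fin (m + 1) → Option V) := by
  funext i
  refine Fin.lastCases ?_ (fun j => ?_) i
  · rw [Fin.snoc_last, Fin.snoc_last]
    rfl
  · rw [Fin.snoc_castSucc, Fin.snoc_castSucc]

private lemma atEq_addS' (c d : Fin b → (Fin b → Prop) → Prop) (e : Fin b → Prop)
    {m₁ m : ℕ} {a : Fin m₁ → V} {a' : Fin m₁ → W}
    (g : Fin m → Option (Fin m₁)) (h : AtEq R S a a') :
    AtEq (addS c d e R) (addS c d e S) (fun i => (g i).map a) (fun i => (g i).map a') := by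
  have hf : ∀ i j, (fun r' => R r' (a i) (a j)) = fun r' => S r' (a' i) (a' j) := by
    intro i j
    funext r'
    exact propext (h.2 r' i j)
  refine ⟨fun i j => ?_, fun r i j => ?_⟩
  · show (g i).map a = (g j).map a ↔ (g i).map a' = (g j).map a'
    rcases g i with _ | i₁ <;> rcases g j with _ | j₁
    · simp only [Option.map_none]
    · simp only [Option.map_none, Option.map_some, reduceCtorEq]
    · simp only [Option.map_none, Option.map_some, reduceCtorEq]
    · simp only [Option.map_some, Option.some.injEq]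
      exact h.1 i₁ j₁
  · show addS c d e R r ((g i).map a) ((g j).map a) ↔ addS c d e S r ((g i).map a') ((g j).map a')
    rcases g i with _ | i₁ <;> rcases g j with _ | j₁
    · exact Iff.rfl
    · show d r (fun r' => R r' (a j₁) (a j₁)) ↔ d r (fun r' => S r' (a' j₁) (a' j₁))
      rw [hf]
    · show c r (fun r' => R r' (a i₁) (a i₁)) ↔ c r (fun r' => S r' (a' i₁) (a' i₁))
      rw [hf]
    · exact h.2 r i₁ j₁

/-- the new element and the set `X`, whether the new element is in the set -/
def upC (μ : Fin b → (Fin b → Prop) → Prop) (p : (Fin (b + 1) → Prop) → Prop) :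
    Fin (b + 1) → (Fin (b + 1) → Prop) → Prop :=
  Fin.snoc (α := fun _ => (Fin (b + 1) → Prop) → Prop)
    (fun r ρ => μ r (fun r' => ρ r'.castSucc)) p

lemma addS_exS (c d : Fin b → (Fin b → Prop) → Prop) (e : Fin b → Prop) (R : Str b V)
    (X : Option V → Prop) :
    addS (upC c (fun ρ => ρ (Fin.last b))) (upC d (fun _ => X none))
      (Fin.snoc (α := fun _ => Prop) e (X none)) (exS R (fun x => X (some x))) =
      exS (addS c d e R) X := by
  have hr : ∀ x y : V, (fun r' : Fin b => exS R (fun x => X (some x)) r'.castSucc x y) =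
      fun r' => R r' x y := by
    intro x y
    funext r'
    rw [exS_castSucc]
  funext r x y
  refine Fin.lastCases ?_ (fun r => ?_) r
  · rw [exS_last]
    rcases x with _ | x <;> rcases y with _ | y
    · show (Fin.snoc (α := fun _ => Prop) e (X none) : Fin (b + 1) → Prop) (Fin.last b) = _
      rw [Fin.snoc_last]
    · show upC d (fun _ => X none) (Fin.last b) _ = _
      unfold upC
      rw [Fin.snoc_last]
    · show upC c (fun ρ => ρ (Fin.last b)) (Fin.last b) _ = _
      unfold upC
      rw [Fin.snoc_last]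
      show exS R (fun x => X (some x)) (Fin.last b) x x = X (some x)
      rw [exS_last]
    · show exS R (fun x => X (some x)) (Fin.last b) x y = _
      rw [exS_last]
  · rw [exS_castSucc]
    rcases x with _ | x <;> rcases y with _ | y
    · show (Fin.snoc (α := fun _ => Prop) e (X none) : Fin (b + 1) → Prop) r.castSucc = e r
      rw [Fin.snoc_castSucc]
    · show upC d (fun _ => X none) r.castSucc (fun r' => exS R (fun x => X (some x)) r' y y) =
        d r (fun r' => R r' y y)
      unfold upC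
      rw [Fin.snoc_castSucc, hr]
    · show upC c (fun ρ => ρ (Fin.last b)) r.castSucc
        (fun r' => exS R (fun x => X (some x)) r' x x) = c r (fun r' => R r' x x)
      unfold upC
      rw [Fin.snoc_castSucc, hr]
    · show exS R (fun x => X (some x)) r.castSucc x y = R r x y
      rw [exS_castSucc]

lemma ME.addS {q : ℕ} : ∀ {b : ℕ} (c d : Fin b → (Fin b → Prop) → Prop) (e : Fin b → Prop)
      {R : Str b V} {S : Str b W} {m₁ m : ℕ} {a : Fin m₁ → V} {a' : Fin m₁ → W}
      (g : Fin m → Option (Fin m₁)), ME q R S a a' →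
      ME q (addS c d e R) (addS c d e S) (fun i => (g i).map a) (fun i => (g i).map a') := by
  induction q with
  | zero =>
    intro b c d e R S m₁ m a a' g h
    exact atEq_addS' c d e g h
  | succ q ih =>
    intro b c d e R S m₁ m a a' g h
    have hm := ME.mono (Nat.le_succ q) h
    have hnone := ih c d e (Fin.snoc g none : Fin (m + 1) → Option (Fin m₁)) hm
    rw [snoc_none' a g, snoc_none' a' g] at hnone
    refine ⟨atEq_addS' c d e g h.at, fun x => ?_, fun y => ?_, fun X => ?_, fun Y => ?_⟩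
    · rcases x with _ | x
      · exact ⟨none, hnone⟩
      · obtain ⟨y, hy⟩ := h.2.1 x
        refine ⟨some y, ?_⟩
        have h1 := ih c d e (Fin.snoc (fun i => (g i).map Fin.castSucc) (some (Fin.last m₁)) :
          Fin (m + 1) → Option (Fin (m₁ + 1))) hy
        rw [snoc_some' a g x, snoc_some' a' g y] at h1
        exact h1
    · rcases y with _ | y
      · exact ⟨none, hnone⟩
      · obtain ⟨x, hx⟩ := h.2.2.1 y
        refine ⟨some x, ?_⟩
        have h1 := ih c d e (Fin.snoc (fun i => (g i).map Fin.castSucc) (some (Fin.last m₁)) :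
          Fin (m + 1) → Option (Fin (m₁ + 1))) hx
        rw [snoc_some' a g x, snoc_some' a' g y] at h1
        exact h1
    · obtain ⟨Y, hY⟩ := h.2.2.2.1 (fun x => X (some x))
      let Y' : Option W → Prop := fun o => match o with
        | some y => Y y
        | none => X none
      refine ⟨Y', ?_⟩
      have h1 := ih (upC c (fun ρ => ρ (Fin.last b))) (upC d (fun _ => X none))
        (Fin.snoc (α := fun _ => Prop) e (X none)) g hY
      have e1 := addS_exS c d e R X
      have e2 := addS_exS c d e S Y'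
      rw [e1] at h1
      rw [← e2]
      exact h1
    · obtain ⟨X, hX⟩ := h.2.2.2.2 (fun x => Y (some x))
      let X' : Option V → Prop := fun o => match o with
        | some y => X y
        | none => Y none
      refine ⟨X', ?_⟩
      have h1 := ih (upC c (fun ρ => ρ (Fin.last b))) (upC d (fun _ => Y none))
        (Fin.snoc (α := fun _ => Prop) e (Y none)) g hX
      have e1 := addS_exS c d e R X'
      have e2 := addS_exS c d e S Y
      rw [e2] at h1
      rw [← e1]
      exact h1

/-! ## Finitely many types -/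

private theorem types_zero (b m : ℕ) : ∃ (T : Type) (_ : Finite T)
    (tp : ∀ (V : Type), Str b V → (Fin m → V) → T),
    ∀ (V W : Type) (R : Str b V) (S : Str b W) (a : Fin m → V) (c : Fin m → W),
      tp V R a = tp W S c ↔ AtEq R S a c := by
  refine ⟨(Fin m → Fin m → Prop) × (Fin b → Fin m → Fin m → Prop), inferInstance,
    fun V R a => (fun i j => a i = a j, fun r i j => R r (a i) (a j)), ?_⟩
  intro V W R S a c
  rw [Prod.ext_iff]
  constructor
  · rintro ⟨h1, h2⟩
    exact ⟨fun i j => (congrFun (congrFun h1 i) j).to_iff,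
      fun r i j => (congrFun (congrFun (congrFun h2 r) i) j).to_iff⟩
  · rintro ⟨h1, h2⟩
    exact ⟨funext fun i => funext fun j => propext (h1 i j),
      funext fun r => funext fun i => funext fun j => propext (h2 r i j)⟩

theorem ME_types (q : ℕ) : ∀ b m : ℕ, ∃ (T : Type) (_ : Finite T)
    (tp : ∀ (V : Type), Str b V → (Fin m → V) → T),
    ∀ (V W : Type) (R : Str b V) (S : Str b W) (a : Fin m → V) (c : Fin m → W),
      tp V R a = tp W S c ↔ ME q R S a c := by
  induction q with
  | zero => exact fun b m => types_zero b m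
  | succ q ih =>
    intro b m
    obtain ⟨T₀, hT₀, tp₀, h₀⟩ := types_zero b m
    obtain ⟨T₁, hT₁, tp₁, h₁⟩ := ih b (m + 1)
    obtain ⟨T₂, hT₂, tp₂, h₂⟩ := ih (b + 1) m
    refine ⟨T₀ × Set T₁ × Set T₂, inferInstance,
      fun V R a => (tp₀ V R a, Set.range fun x : V => tp₁ V R (Fin.snoc a x),
        Set.range fun X : V → Prop => tp₂ V (exS R X) a), ?_⟩
    intro V W R S a c
    rw [Prod.ext_iff, Prod.ext_iff]
    constructor
    · rintro ⟨e1, e2, e3⟩
      change (Set.range fun x : V => tp₁ V R (Fin.snoc a x)) =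
        Set.range fun y : W => tp₁ W S (Fin.snoc c y) at e2
      change (Set.range fun X : V → Prop => tp₂ V (exS R X) a) =
        Set.range fun Y : W → Prop => tp₂ W (exS S Y) c at e3
      refine ⟨(h₀ V W R S a c).1 e1, fun x => ?_, fun y => ?_, fun X => ?_, fun Y => ?_⟩
      · have hx : tp₁ V R (Fin.snoc a x) ∈ Set.range fun y : W => tp₁ W S (Fin.snoc c y) :=
          e2 ▸ Set.mem_range_self x
        obtain ⟨y, hy⟩ := hx
        exact ⟨y, (h₁ V W R S _ _).1 hy.symm⟩
      · have hy : tp₁ W S (Fin.snoc c y) ∈ Set.range fun x : V => tp₁ V R (Fin.snoc a x) :=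
          e2.symm ▸ Set.mem_range_self y
        obtain ⟨x, hx⟩ := hy
        exact ⟨x, (h₁ V W R S _ _).1 hx⟩
      · have hx : tp₂ V (exS R X) a ∈ Set.range fun Y : W → Prop => tp₂ W (exS S Y) c :=
          e3 ▸ Set.mem_range_self X
        obtain ⟨Y, hY⟩ := hx
        exact ⟨Y, (h₂ V W _ _ _ _).1 hY.symm⟩
      · have hx : tp₂ W (exS S Y) c ∈ Set.range fun X : V → Prop => tp₂ V (exS R X) a :=
          e3.symm ▸ Set.mem_range_self Y
        obtain ⟨X, hX⟩ := hx
        exact ⟨X, (h₂ V W _ _ _ _).1 hX⟩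
    · rintro ⟨e0, e1, e2, e3, e4⟩
      refine ⟨(h₀ V W R S a c).2 e0, Set.Subset.antisymm ?_ ?_, Set.Subset.antisymm ?_ ?_⟩
      · rintro _ ⟨x, rfl⟩
        obtain ⟨y, hy⟩ := e1 x
        exact ⟨y, ((h₁ V W R S _ _).2 hy).symm⟩
      · rintro _ ⟨y, rfl⟩
        obtain ⟨x, hx⟩ := e2 y
        exact ⟨x, (h₁ V W R S _ _).2 hx⟩
      · rintro _ ⟨X, rfl⟩
        obtain ⟨Y, hY⟩ := e3 X
        exact ⟨Y, ((h₂ V W _ _ _ _).2 hY).symm⟩
      · rintro _ ⟨Y, rfl⟩
        obtain ⟨X, hX⟩ := e4 Y
        exact ⟨X, (h₂ V W _ _ _ _).2 hX⟩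

end Pool.Agent.Helper32.MX
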