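import Pool.Agent.Helper32.MX.Defs
import Pool.Agent.Helper32.MX.ME
import Pool.Agent.Helper20.FS.Tame
import Pool.Agent.Helper29.EX.MonoMain

/-!
# Monadic second-order spectra over the tame classes are ultimately periodic
-/

set_option autoImplicit false

namespace Pool.Agent.Helper32.MX

open FirstOrder FirstOrder.Language Pool.Agent.Helper20.Spectra Pool.Agent.Helper20.OP
  Pool.Agent.Helper20.FS Pool.Agent.Helper14.SS

/-- the structure with the sets as additional relations -/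
def extS {b m : ℕ} {V : Type} (R : Str b V) (X : Fin m → Finset V) : Str (b + m) V :=
  Fin.append R (fun j x _ => x ∈ X j)

lemma extS_left {b m : ℕ} {V : Type} (R : Str b V) (X : Fin m → Finset V) (r : Fin b) :
    extS R X (Fin.castAdd m r) = R r := by
  unfold extS
  rw [Fin.append_left]

lemma extS_right {b m : ℕ} {V : Type} (R : Str b V) (X : Fin m → Finset V) (j : Fin m) :
    extS R X (Fin.natAdd b j) = fun x _ => x ∈ X j := by
  unfold extS
  rw [Fin.append_right]

/-- the renaming of the relations -/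
def renR (b m : ℕ) : Fin (b + (m + 1)) → Fin (b + m + 1) :=
  Fin.append (fun i : Fin b => (Fin.castAdd m i).castSucc)
    (Fin.cons (Fin.last (b + m)) (fun j : Fin m => (Fin.natAdd b j).castSucc))

lemma extS_cons {b m : ℕ} {V : Type} (R : Str b V) (X : Fin m → Finset V) (Z : Finset V) :
    (fun r => exS (extS R X) (fun x => x ∈ Z) (renR b m r)) =
      extS R (Fin.cons Z X : Fin (m + 1) → Finset V) := by
  funext r
  refine Fin.addCases (fun i => ?_) (fun j => ?_) r
  · rw [extS_left]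
    unfold renR
    rw [Fin.append_left, exS_castSucc, extS_left]
  · rw [extS_right]
    unfold renR
    rw [Fin.append_right]
    refine Fin.cases ?_ (fun j => ?_) j
    · rw [Fin.cons_zero, exS_last]
      rfl
    · rw [Fin.cons_succ, exS_castSucc, extS_right]
      rfl

/-- truth of first-order formulas -/
lemma fo_real {b k : ℕ} (φ : (binLang b).Formula (Fin k)) : ∃ q : ℕ, ∀ (V W : Type) (R : Str b V)
    (S : Str b W) (v : Fin k → V) (w : Fin k → W), EFq q R S v w →
      (@Formula.Realize _ V (toStr R) _ φ v ↔ @Formula.Realize _ W (toStr S) _ φ w) := by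
  let ψ : (binLang b).BoundedFormula Empty k :=
    BoundedFormula.relabel (Sum.inr : Fin k → Empty ⊕ Fin k) φ
  obtain ⟨q, hq⟩ := EFq.realize ψ
  have key : ∀ (V : Type) (R : Str b V) (v : Fin k → V),
      @BoundedFormula.Realize _ V (toStr R) _ _ ψ default v ↔
        @Formula.Realize _ V (toStr R) _ φ v := by
    intro V R v
    let _ := toStr R
    have h1 := BoundedFormula.realize_relabel (φ := φ) (g := (Sum.inr : Fin k → Empty ⊕ Fin k))
      (v := (default : Empty → V)) (xs := (v : Fin (k + 0) → V))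
    refine h1.trans ?_
    unfold Formula.Realize
    have e1 : (Sum.elim (default : Empty → V) ((v : Fin (k + 0) → V) ∘ Fin.castAdd 0) ∘
        (Sum.inr : Fin k → Empty ⊕ Fin k)) = v := by
      funext i
      rfl
    have e2 : ((v : Fin (k + 0) → V) ∘ Fin.natAdd k) = (default : Fin 0 → V) :=
      Subsingleton.elim _ _
    rw [e1, e2]
  refine ⟨q, fun V W R S v w h => ?_⟩
  rw [← key, ← key]
  exact hq V W R S v w h

/-- truth of formulas with set quantifiers -/
theorem ME.holds {b k m : ℕ} (φ : SFm (binLang b) k m) : ∃ q : ℕ,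
    ∀ (V W : Type) [Finite V] [Finite W] (R : Str b V) (S : Str b W) (v : Fin k → V)
      (w : Fin k → W) (X : Fin m → Finset V) (Y : Fin m → Finset W) (N₁ N₂ : ℕ),
      Nat.card V ≤ N₁ → Nat.card W ≤ N₂ → ME q (extS R X) (extS S Y) v w →
      (@SFm.Holds _ V (toStr R) N₁ k m φ v X ↔ @SFm.Holds _ W (toStr S) N₂ k m φ w Y) := by
  induction φ with
  | @fo k m φ =>
    obtain ⟨q, hq⟩ := fo_real φ
    refine ⟨q, fun V W _ _ R S v w X Y N₁ N₂ _ _ h => ?_⟩
    have h1 := (ME.rels (Fin.castAdd m) h).efq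
    have e : ∀ (U : Type) (T : Str b U) (Z : Fin m → Finset U),
        (fun r => extS T Z (Fin.castAdd m r)) = T := fun U T Z => funext (extS_left T Z)
    rw [e, e] at h1
    exact hq V W R S v w h1
  | @mem k m i j =>
    refine ⟨0, fun V W _ _ R S v w X Y N₁ N₂ _ _ h => ?_⟩
    have h1 := h.at.2 (Fin.natAdd b j) i i
    rw [extS_right, extS_right] at h1
    exact h1
  | not φ ih =>
    obtain ⟨q, hq⟩ := ih
    exact ⟨q, fun V W _ _ R S v w X Y N₁ N₂ h1 h2 h =>
      not_congr (hq V W R S v w X Y N₁ N₂ h1 h2 h)⟩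
  | and φ ψ ih1 ih2 =>
    obtain ⟨q1, hq1⟩ := ih1
    obtain ⟨q2, hq2⟩ := ih2
    exact ⟨max q1 q2, fun V W _ _ R S v w X Y N₁ N₂ h1 h2 h =>
      and_congr (hq1 V W R S v w X Y N₁ N₂ h1 h2 (ME.mono (le_max_left _ _) h))
        (hq2 V W R S v w X Y N₁ N₂ h1 h2 (ME.mono (le_max_right _ _) h))⟩
  | @ex k m φ ih =>
    obtain ⟨q, hq⟩ := ih
    have e : ∀ (U : Type) (t : Fin k → U) (x : U), (fun i => (Fin.snoc t x : Fin (k + 1) → U)
        ((Fin.cons (Fin.last k) Fin.castSucc : Fin (k + 1) → Fin (k + 1)) i)) =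
        (Fin.cons x t : Fin (k + 1) → U) := by
      intro U t x
      funext i
      refine Fin.cases ?_ (fun i => ?_) i
      · rw [Fin.cons_zero, Fin.cons_zero, Fin.snoc_last]
      · rw [Fin.cons_succ, Fin.cons_succ, Fin.snoc_castSucc]
    refine ⟨q + 1, fun V W _ _ R S v w X Y N₁ N₂ h1 h2 h => ⟨?_, ?_⟩⟩
    · rintro ⟨x, hx⟩
      obtain ⟨y, hy⟩ := h.2.1 x
      refine ⟨y, ?_⟩
      have h3 := ME.elts (Fin.cons (Fin.last k) Fin.castSucc : Fin (k + 1) → Fin (k + 1)) hy
      rw [e, e] at h3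
      exact (hq V W R S _ _ X Y N₁ N₂ h1 h2 h3).1 hx
    · rintro ⟨y, hy'⟩
      obtain ⟨x, hx⟩ := h.2.2.1 y
      refine ⟨x, ?_⟩
      have h3 := ME.elts (Fin.cons (Fin.last k) Fin.castSucc : Fin (k + 1) → Fin (k + 1)) hx
      rw [e, e] at h3
      exact (hq V W R S _ _ X Y N₁ N₂ h1 h2 h3).2 hy'
  | @exSet k m φ ih =>
    classical
    obtain ⟨q, hq⟩ := ih
    refine ⟨q + 1, fun V W _ _ R S v w X Y N₁ N₂ h1 h2 h => ⟨?_, ?_⟩⟩
    · rintro ⟨Z, hZ, hx⟩
      have hfV := Fintype.ofFinite V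
      have hfW := Fintype.ofFinite W
      obtain ⟨Z', hZ'⟩ := h.2.2.2.1 (fun x => x ∈ Z)
      let Z'' : Finset W := Finset.univ.filter Z'
      have e : Z' = fun x => x ∈ Z'' := by
        funext x
        simp [Z'']
      rw [e] at hZ'
      have h3 := ME.rels (renR b m) hZ'
      rw [extS_cons, extS_cons] at h3
      refine ⟨Z'', (Finset.card_le_univ _).trans ?_, (hq V W R S _ _ _ _ N₁ N₂ h1 h2 h3).1 hx⟩
      rw [← Nat.card_eq_fintype_card]
      exact h2
    · rintro ⟨Z, hZ, hx⟩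
      have hfV := Fintype.ofFinite V
      have hfW := Fintype.ofFinite W
      obtain ⟨Z', hZ'⟩ := h.2.2.2.2 (fun x => x ∈ Z)
      let Z'' : Finset V := Finset.univ.filter Z'
      have e : Z' = fun x => x ∈ Z'' := by
        funext x
        simp [Z'']
      rw [e] at hZ'
      have h3 := ME.rels (renR b m) hZ'
      rw [extS_cons, extS_cons] at h3
      refine ⟨Z'', (Finset.card_le_univ _).trans ?_, (hq V W R S _ _ _ _ N₁ N₂ h1 h2 h3).2 hx⟩
      rw [← Nat.card_eq_fintype_card]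
      exact h1

/-! ## Pumping -/

/-- the types reached after adding `n` elements -/
private inductive Rc32 {T : Type} (E S : T → T → Prop) (t₀ : T) : ℕ → T → Prop
  | nil : Rc32 E S t₀ 0 t₀
  | eps (n : ℕ) (t t' : T) : Rc32 E S t₀ n t → E t t' → Rc32 E S t₀ n t'
  | step (n : ℕ) (t t' : T) : Rc32 E S t₀ n t → S t t' → Rc32 E S t₀ (n + 1) t'

private lemma rc_succ32 {T : Type} (E S : T → T → Prop) (t₀ : T) (n : ℕ) (t' : T) :
    Rc32 E S t₀ (n + 1) t' ↔ ∃ t t₁, Rc32 E S t₀ n t ∧ S t t₁ ∧ Relation.ReflTransGen E t₁ t' := by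
  constructor
  · have key : ∀ m t', Rc32 E S t₀ m t' → ∀ n, m = n + 1 →
        ∃ t t₁, Rc32 E S t₀ n t ∧ S t t₁ ∧ Relation.ReflTransGen E t₁ t' := by
      intro m t' h
      induction h with
      | nil => intro n hn; omega
      | eps m t t' _ he ih =>
        intro n hn
        obtain ⟨u, u₁, h1, h2, h3⟩ := ih n hn
        exact ⟨u, u₁, h1, h2, h3.tail he⟩
      | step m t t' h hs _ =>
        intro n hn
        have : m = n := by omega
        subst this
        exact ⟨t, t', h, hs, Relation.ReflTransGen.refl⟩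
    intro h
    exact key _ _ h n rfl
  · rintro ⟨t, t₁, h1, h2, h3⟩
    induction h3 with
    | refl => exact Rc32.step _ _ _ h1 h2
    | tail _ he ih => exact Rc32.eps _ _ _ ih he

private lemma rc_shift32 {T : Type} (E S : T → T → Prop) (t₀ : T) {i p : ℕ}
    (h : ∀ t, Rc32 E S t₀ (i + p) t ↔ Rc32 E S t₀ i t) :
    ∀ n, i ≤ n → ∀ t, Rc32 E S t₀ (n + p) t ↔ Rc32 E S t₀ n t := by
  intro n hn
  induction n, hn using Nat.le_induction with
  | base => exact h
  | succ n _ ih =>
    intro t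
    have e : n + 1 + p = n + p + 1 := by omega
    rw [e, rc_succ32, rc_succ32]
    constructor
    · rintro ⟨u, u₁, h1, h2⟩
      exact ⟨u, u₁, (ih u).1 h1, h2⟩
    · rintro ⟨u, u₁, h1, h2⟩
      exact ⟨u, u₁, (ih u).2 h1, h2⟩

private lemma lgen_finite32 {b : ℕ} {V : Type} {R : Str b V} (h : LGen b V R) : Finite V := by
  induction h with
  | nil V R h => exact Finite.of_subsingleton
  | pre V R m _ ih => exact ih
  | add V R c d e _ ih => exact inferInstance
  | iso V W e R _ ih => exact Finite.of_equiv V e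

/-- sizes of the structures built element by element with an invariant property -/
theorem lgen_inv (b q : ℕ) (Q : ∀ V : Type, Str b V → Prop)
    (hQ : ∀ (V W : Type) [Finite V] [Finite W] (R : Str b V) (S : Str b W),
      ME q R S (Fin.elim0 : Fin 0 → V) (Fin.elim0 : Fin 0 → W) → (Q V R ↔ Q W S)) :
    UltPeriodic {n : ℕ | 1 ≤ n ∧ ∃ R : Str b (Fin n), LGen b (Fin n) R ∧ Q (Fin n) R} := by
  obtain ⟨T, hT, tp, htp⟩ := ME_types q b 0
  let E : T → T → Prop := fun t t' => ∃ (V : Type) (R : Str b V)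
    (m : Fin b → (Fin b → Prop) → Prop), tp V R Fin.elim0 = t ∧
      tp V (Helper20.FS.preS m R) Fin.elim0 = t'
  let St : T → T → Prop := fun t t' => ∃ (V : Type) (R : Str b V)
    (c d : Fin b → (Fin b → Prop) → Prop) (e : Fin b → Prop), tp V R Fin.elim0 = t ∧
      tp (Option V) (Helper20.FS.addS c d e R) Fin.elim0 = t'
  let t₀ : T := tp Empty (fun _ _ _ => False) Fin.elim0
  have hiso : ∀ (V W : Type) (e : V ≃ W) (R : Str b V),
      ME q R (fun r (x y : W) => R r (e.symm x) (e.symm y)) Fin.elim0 Fin.elim0 := by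
    intro V W e R
    have h1 := ME.iso (q := q) e R (Fin.elim0 : Fin 0 → V)
    have h2 : (fun i => e ((Fin.elim0 : Fin 0 → V) i)) = Fin.elim0 := funext (fun i => i.elim0)
    rw [h2] at h1
    exact h1
  have hadd : ∀ (V W : Type) (R : Str b V) (S : Str b W) (c d : Fin b → (Fin b → Prop) → Prop)
      (e : Fin b → Prop), ME q R S Fin.elim0 Fin.elim0 →
      ME q (Helper20.FS.addS c d e R) (Helper20.FS.addS c d e S) Fin.elim0 Fin.elim0 := by
    intro V W R S c d e h
    have h1 := ME.addS c d e (m := 0) Fin.elim0 h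
    have e1 : (fun i : Fin 0 => ((Fin.elim0 : Fin 0 → Option (Fin 0)) i).map
        (Fin.elim0 : Fin 0 → V)) = Fin.elim0 := funext (fun i => i.elim0)
    have e2 : (fun i : Fin 0 => ((Fin.elim0 : Fin 0 → Option (Fin 0)) i).map
        (Fin.elim0 : Fin 0 → W)) = Fin.elim0 := funext (fun i => i.elim0)
    rw [e1, e2] at h1
    exact h1
  have hA : ∀ (V : Type) (R : Str b V), LGen b V R →
      Rc32 E St t₀ (Nat.card V) (tp V R Fin.elim0) := by
    intro V R h
    induction h with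
    | nil V R h =>
      have e1 : Nat.card V = 0 := by
        have := h
        exact Nat.card_of_isEmpty
      have e2 : tp V R Fin.elim0 = t₀ := by
        have := h
        exact (htp _ _ _ _ _ _).2 (ME.empty R _)
      rw [e1, e2]
      exact Rc32.nil
    | pre V R m _ ih => exact Rc32.eps _ _ _ ih ⟨V, R, m, rfl, rfl⟩
    | add V R c d e h ih =>
      have := lgen_finite32 h
      rw [Finite.card_option]
      exact Rc32.step _ _ _ ih ⟨V, R, c, d, e, rfl, rfl⟩
    | iso V W e R _ ih =>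
      rw [← Nat.card_congr e, ← (htp _ _ _ _ _ _).2 (hiso V W e R)]
      exact ih
  have hB : ∀ n t, Rc32 E St t₀ n t → ∃ (V : Type) (R : Str b V), LGen b V R ∧ Nat.card V = n ∧
      tp V R Fin.elim0 = t := by
    intro n t h
    induction h with
    | nil => exact ⟨Empty, fun _ _ _ => False, LGen.nil _ _ inferInstance, Nat.card_of_isEmpty, rfl⟩
    | eps n t t' _ he ih =>
      obtain ⟨V₀, R₀, m, e1, e2⟩ := he
      obtain ⟨V, R, g, c, r⟩ := ih
      refine ⟨V, Helper20.FS.preS m R, LGen.pre V R m g, c, ?_⟩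
      rw [← e2, htp]
      exact ME.preS m ((htp _ _ _ _ _ _).1 (r.trans e1.symm))
    | step n t t' _ hs ih =>
      obtain ⟨V₀, R₀, c', d', e', e1, e2⟩ := hs
      obtain ⟨V, R, g, c, r⟩ := ih
      have := lgen_finite32 g
      refine ⟨Option V, Helper20.FS.addS c' d' e' R, LGen.add V R c' d' e' g, ?_, ?_⟩
      · rw [Finite.card_option, c]
      · rw [← e2, htp]
        exact hadd _ _ _ _ c' d' e' ((htp _ _ _ _ _ _).1 (r.trans e1.symm))
  let F : Set T := {t | ∃ (V : Type) (_ : Finite V) (R : Str b V), tp V R Fin.elim0 = t ∧ Q V R}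
  have hmem : ∀ n, n ∈ {n : ℕ | 1 ≤ n ∧ ∃ R : Str b (Fin n), LGen b (Fin n) R ∧ Q (Fin n) R} ↔
      1 ≤ n ∧ ∃ t ∈ F, Rc32 E St t₀ n t := by
    intro n
    constructor
    · rintro ⟨hn, R, h1, h2⟩
      refine ⟨hn, _, ⟨Fin n, inferInstance, R, rfl, h2⟩, ?_⟩
      have h3 := hA _ R h1
      rw [Nat.card_fin] at h3
      exact h3
    · rintro ⟨hn, t, ⟨V₀, hV₀, R₀, h1, h2⟩, h3⟩
      obtain ⟨V, R, h4, h5, h6⟩ := hB n t h3
      have := lgen_finite32 h4
      let e : V ≃ Fin n := (Finite.equivFin V).trans (finCongr h5)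
      refine ⟨hn, _, LGen.iso V (Fin n) e R h4, ?_⟩
      rw [← hQ _ _ _ _ (hiso V (Fin n) e R)]
      exact (hQ _ _ _ _ ((htp _ _ _ _ _ _).1 (h1.trans h6.symm))).1 h2
  -- two equal sets of types
  obtain ⟨i, j, hij, hX⟩ : ∃ i j : ℕ, i < j ∧ ∀ t, Rc32 E St t₀ j t ↔ Rc32 E St t₀ i t := by
    obtain ⟨i, j, hne, h⟩ := Finite.exists_ne_map_eq_of_infinite
      (fun n : ℕ => ({t | Rc32 E St t₀ n t} : Set T))
    have h' : ∀ t, Rc32 E St t₀ i t ↔ Rc32 E St t₀ j t := fun t => by
      have := congrArg (fun X : Set T => t ∈ X) h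
      exact this.to_iff
    rcases lt_or_gt_of_ne hne with hlt | hlt
    · exact ⟨i, j, hlt, fun t => (h' t).symm⟩
    · exact ⟨j, i, hlt, h'⟩
  have hsh := rc_shift32 E St t₀ (i := i) (p := j - i) (by
    rw [Nat.add_sub_cancel' hij.le]
    exact hX)
  refine ⟨j - i, i + 1, by omega, fun n hn => ?_⟩
  rw [hmem, hmem]
  constructor
  · rintro ⟨h1, t, ht, h2⟩
    exact ⟨by omega, t, ht, (hsh n (by omega) t).2 h2⟩
  · rintro ⟨h1, t, ht, h2⟩
    exact ⟨by omega, t, ht, (hsh n (by omega) t).1 h2⟩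

/-- the tame half: if `K` does not contain all forests of subdivided claws, then all monadic
second-order spectra over `K` are ultimately periodic -/
theorem mso_tame {K : ∀ n : ℕ, Str 1 (Fin n) → Prop} {ψ : (binLang 1).Sentence}
    (hK : Helper29.EX.DefBy K ψ) (hM : Helper20.EX.Monotone K)
    (hS : ¬ Helper29.EX.HasAll claws K) {A : Set ℕ} (hA : MSpectrumOver K A) :
    UltPeriodic A := by
  classical
  obtain ⟨n₀, P, hP, hPS, hPK⟩ := Helper29.EX.not_hasAll hS
  obtain ⟨M, hM', hM''⟩ := crit_graph P hPS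
  obtain ⟨φ, hφ⟩ := hA
  obtain ⟨q₁, hq₁⟩ := ME.holds φ
  obtain ⟨q₂, hq₂⟩ := EFq.realize (ψ : (binLang 1).BoundedFormula Empty 0)
  let b' : ℕ := (M * (3 * (M + 1)) + (4 * M + 1)) + 1
  let τ : Fin 1 → Fin b' := fun _ => 0
  let q := max (max q₁ q₂) 2
  let Q : ∀ V : Type, Str b' V → Prop := fun V R' =>
    (Helper20.FS.Kind.graph.Is (fun r => R' (τ r) : Str 1 V) ∧
      Models (fun r => R' (τ r) : Str 1 V) ψ) ∧
    @SFm.Holds _ V (toStr (fun r => R' (τ r) : Str 1 V)) (Nat.card V) 0 0 φ Fin.elim0 Fin.elim0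
  have hQ : ∀ (V W : Type) [Finite V] [Finite W] (R : Str b' V) (S : Str b' W),
      ME q R S (Fin.elim0 : Fin 0 → V) (Fin.elim0 : Fin 0 → W) → (Q V R ↔ Q W S) := by
    intro V W _ _ R S h
    have h1 := ME.rels τ h
    have e : ∀ (U : Type) (T : Str 1 U), extS T (Fin.elim0 : Fin 0 → Finset U) = T := by
      intro U T
      funext r
      exact extS_left T (Fin.elim0 : Fin 0 → Finset U) r
    refine and_congr (and_congr ?_ ?_) ?_
    · -- graphs
      have h2 := (ME.mono (le_max_right _ 2 : 2 ≤ q) h1)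
      have key : ∀ (V W : Type) (R : Str 1 V) (S : Str 1 W),
          ME 2 R S (Fin.elim0 : Fin 0 → V) (Fin.elim0 : Fin 0 → W) →
          Helper20.FS.Kind.graph.Is R → Helper20.FS.Kind.graph.Is S := by
        rintro V W R S h ⟨h3, h4⟩
        refine ⟨fun y hy => ?_, fun y y' hy => ?_⟩
        · obtain ⟨x, hx⟩ := h.2.2.1 y
          have h5 := hx.at.2 0 0 0
          exact h3 x (h5.2 hy)
        · obtain ⟨x, hx⟩ := h.2.2.1 y
          obtain ⟨x', hx'⟩ := hx.2.2.1 y'
          have h5 := hx'.at.2 0 0 1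
          have h6 := hx'.at.2 0 1 0
          exact h6.1 (h4 x x' (h5.2 hy))
      have hsymm : ME 2 (fun r => S (τ r) : Str 1 W) (fun r => R (τ r) : Str 1 V)
          (Fin.elim0 : Fin 0 → W) (Fin.elim0 : Fin 0 → V) := by
        obtain ⟨T, _, tp, htp⟩ := ME_types 2 1 0
        exact (htp _ _ _ _ _ _).1 ((htp _ _ _ _ _ _).2 h2).symm
      exact ⟨key _ _ _ _ h2, key _ _ _ _ hsymm⟩
    · have h2 := (ME.mono ((le_max_right q₁ q₂).trans (le_max_left _ 2) : q₂ ≤ q) h1).efq
      have h3 := hq₂ V W _ _ _ _ h2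
      have e1 : (Fin.elim0 : Fin 0 → V) = default := Subsingleton.elim _ _
      have e2 : (Fin.elim0 : Fin 0 → W) = default := Subsingleton.elim _ _
      rw [e1, e2] at h3
      exact h3
    · refine hq₁ V W _ _ _ _ _ _ _ _ le_rfl le_rfl ?_
      rw [e, e]
      exact ME.mono ((le_max_left q₁ q₂).trans (le_max_left _ 2) : q₁ ≤ q) h1
  have hfin := lgen_inv b' q Q hQ
  have e : A = {n : ℕ | 1 ≤ n ∧ ∃ R : Str b' (Fin n), LGen b' (Fin n) R ∧ Q (Fin n) R} := by
    ext n
    rw [hφ]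
    constructor
    · rintro ⟨hn, R, h1, h2⟩
      have h3 := (hK n R).1 h1
      have h4 : ¬ DTri (R (0 : Fin 1)) M M := fun h =>
        hPK (hM _ _ _ _ h1 hP (hM'' (Fin n) R h3.1 h))
      obtain ⟨B, hB⟩ := core h3.1.2 hM' h4
      obtain ⟨R', h5, h6⟩ := lgen_graph h3.1.1 h3.1.2 hB
      have h7 : (fun r => R' (τ r) : Str 1 (Fin n)) = R := by
        funext r
        have hr : r = (0 : Fin 1) := Subsingleton.elim (α := Fin 1) r 0
        subst hr
        exact h6
      refine ⟨hn, R', h5, ?_⟩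
      show (Helper20.FS.Kind.graph.Is (fun r => R' (τ r) : Str 1 (Fin n)) ∧
        Models (fun r => R' (τ r) : Str 1 (Fin n)) ψ) ∧
        @SFm.Holds _ (Fin n) (toStr (fun r => R' (τ r) : Str 1 (Fin n))) (Nat.card (Fin n)) 0 0 φ
          Fin.elim0 Fin.elim0
      rw [h7, Nat.card_fin]
      exact ⟨h3, h2⟩
    · rintro ⟨hn, R', _, h1, h2⟩
      rw [Nat.card_fin] at h2
      exact ⟨hn, _, (hK _ _).2 h1, h2⟩
  rw [e]
  exact hfin

end Pool.Agent.Helper32.MX
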