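import Pool.Agent.Helper14.SS.Defs
import Pool.Agent.Helper20.OP.Def

/-!
# Spectra of monadic second-order sentences over a class of graphs
-/

set_option autoImplicit false

namespace Pool.Agent.Helper32.MX

open FirstOrder Pool.Agent.Helper20.Spectra Pool.Agent.Helper20.OP Pool.Agent.Helper14.SS

/-- `A` is the set of sizes of the graphs in `K` which satisfy a monadic second-order sentence:
a sentence with first-order quantifiers and quantifiers over all sets of vertices (in a graph with
`n` vertices: over all sets with at most `n` vertices) -/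
def MSpectrumOver (K : ∀ n : ℕ, Str 1 (Fin n) → Prop) (A : Set ℕ) : Prop :=
  ∃ φ : SFm (binLang 1) 0 0, ∀ n : ℕ, n ∈ A ↔ (1 ≤ n ∧ ∃ R : Str 1 (Fin n), K n R ∧
    @SFm.Holds (binLang 1) (Fin n) (toStr R) n 0 0 φ Fin.elim0 Fin.elim0)

end Pool.Agent.Helper32.MX
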